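import Pool.Agent.Q280.SI.Pop
import Pool.Agent.Q92.SD.Defs

/-! Popescu's conjecture up to a multiple over a field: definitions. -/

set_option autoImplicit false
set_option linter.unusedSectionVars false

namespace Pool.Agent.Q92.SE

open NumberField IsDedekindDomain Pool.Agent.Q20.RS Pool.Agent.Q20.SI Pool.Agent.Q280.SI

/-- Popescu's conjecture up to a multiple for all data over `E` -/
def PopOver (E : Type) [Field E] [NumberField E] : Prop :=
  ∀ (L : Type) [Field L] [NumberField L] [Algebra E L] [IsGalois E L] (D : PopData E L),
    PopQ1 D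

/-- Popescu's conjecture up to a multiple for the data over `E` for which `L/E` is cyclic of degree
greater than `1`, `S` consists of the archimedean places, the ramified primes and at most one further
prime, and `w_1, …, w_r` lie above all the places of `S` which split completely -/
def PopCyc (E : Type) [Field E] [NumberField E] : Prop :=
  ∀ (L : Type) [Field L] [NumberField L] [Algebra E L] [IsGalois E L] (D : PopData E L),
    IsCyclic (L ≃ₐ[E] L) → (∃ g : L ≃ₐ[E] L, g ≠ 1) →
    (∃ p : HeightOneSpectrum (𝓞 E), ∀ q ∈ D.S, q = p ∨ ¬ Unrm L q) →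
    (∀ v : Pl L, InPl (abv L D.S) v → (∀ g : L ≃ₐ[E] L, pact g v = v → g = 1) →
      ∃ (i : Fin (D.s + 1)) (g : L ≃ₐ[E] L), pact g (D.w i) = v) → PopQ1 D

end Pool.Agent.Q92.SE
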