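import Pool.Agent.Q92.SE.PopDefs
import Pool.Agent.Q280.SI.Popp
import Pool.Agent.Q280.SI.Spl
import Pool.Agent.Q92.SD.Laws

/-! Popescu's conjecture up to a multiple: the extension fields which suffice. -/

set_option autoImplicit false
set_option linter.unusedSectionVars false

namespace Pool.Agent.Q92.SE

open NumberField IsDedekindDomain Pool.Agent.Q20.RS Pool.Agent.Q20.SI Pool.Agent.Q280.SI
  Pool.Agent.Q92.SD Pool.Agent.Q5.BR
open Pool.Agent.Q20.RS.RL (StarkEq)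

/-- Popescu's data from Rubin's -/
theorem pop_of_order {E M : Type} [Field E] [NumberField E] [Field M] [NumberField M]
    [Algebra E M] (D : OrderData E M) (hr : 0 < D.r) : ∃ D' : PopData E M, D'.S = D.S ∧
    (∀ v : Pl M, InPl (abv M D'.S) v → (∀ g : M ≃ₐ[E] M, pact g v = v → g = 1) →
      ∃ (i : Fin (D'.s + 1)) (g : M ≃ₐ[E] M), pact g (D'.w i) = v) ∧
    ∀ χ : (M ≃ₐ[E] M) →* ℂˣ, (∃ g, χ g ≠ 1) → D.Exact χ → D'.Exact χ := by
  obtain ⟨comm, S, ram, r, w, mem, split, dist, all, more, T, disj, tors⟩ := D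
  obtain ⟨s, rfl⟩ : ∃ s, r = s + 1 := ⟨r - 1, by
    have : 0 < r := hr
    omega⟩
  refine ⟨⟨comm, S, ram, s, w, mem, split, dist, ?_⟩, rfl, all, ?_⟩
  · obtain ⟨v, hv, g, hg, hg1⟩ := more
    refine ⟨v, hv, fun i h hh => hg1 ?_⟩
    have h1 := split i (h⁻¹ * g * h) (by
      rw [pact_mul, pact_mul, hh, hg, ← hh, ← pact_mul, inv_mul_cancel, pact_one])
    have h2 : g = h * 1 * h⁻¹ := by
      rw [← h1]
      group
    rw [h2, mul_one, mul_inv_cancel]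
  · rintro χ hχ (h | h)
    · exact Or.inl h
    · obtain ⟨g, hg⟩ := hχ
      exact absurd (h.1 g) hg

/-- Stark's equality over `E` -/
theorem starkEq_of_pop {E : Type} [Field E] [NumberField E] (hO : PopCyc E)
    {ψ : RL.Lin (base E)} (hψ : ψ.smooth) (σ : ℂ ≃+* ℂ) : StarkEq ψ.fn σ := by
  classical
  by_cases htr : ∀ g, ψ.fn g = 1
  · exact triv_starkEq orb exi Pool.Agent.Q123.SI.lfn Pool.Agent.Q299.SI.CN0.cn0
      Pool.Agent.Q223.SI.rga Pool.Agent.Q223.SI.rgb Pool.Agent.Q20.RS.fin_base htr σ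
  obtain ⟨M, _, _, _, _, j, χ, hinf, hinj⟩ := kerf_base Pool.Agent.Q214.SI.ker ψ hψ
  have hm := base_mem (F := E) j
  have hfin : {v : HeightOneSpectrum (𝓞 E) | ¬ Unrm M v}.Finite :=
    Pool.Agent.Q92.AR.ramified_finite
  have hab : ∀ a b : M ≃ₐ[E] M, a * b = b * a := fun a b => hinj (by
    rw [map_mul, map_mul, mul_comm])
  have hnt : ∃ y, χ y ≠ 1 := by
    by_contra hn
    push Not at hn
    refine htr fun g => ?_
    obtain ⟨y, hy⟩ := exists_restr (K := E) (E := E) (E' := base E) j hm g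
    rw [← hinf y g hy]
    unfold cf
    rw [hn, Units.val_one]
  obtain ⟨y, hy⟩ := hnt
  have hy1 : y ≠ 1 := fun h => hy (by rw [h, map_one])
  obtain ⟨p, ⟨v₁, hv₁, hs₁⟩, v₂, hv₂, g₂, hg₂, hg₂'⟩ : ∃ p : HeightOneSpectrum (𝓞 E),
      (∃ v : Pl M, InPl (abv M (insert p hfin.toFinset)) v ∧
        ∀ g : M ≃ₐ[E] M, pact g v = v → g = 1) ∧
      ∃ v : Pl M, InPl (abv M (insert p hfin.toFinset)) v ∧
        ∃ g : M ≃ₐ[E] M, pact g v = v ∧ g ≠ 1 := by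
    by_cases hsp : ∃ v : InfinitePlace M, ∀ g : M ≃ₐ[E] M, g • v = v → g = 1
    · obtain ⟨v, hv⟩ := hsp
      obtain ⟨P, -, hP⟩ := Pool.Agent.Q123.SI.Nsp.nsp E M y ∅
      refine ⟨P.under (𝓞 E), ⟨.inr v, trivial, fun g hg => hv g (Sum.inr_injective hg)⟩, .inl P,
        mem_abv.2 (Finset.mem_insert_self _ _), y, congrArg Sum.inl hP, hy1⟩
    · push Not at hsp
      obtain ⟨P, hP⟩ := exists_spl hab hfin
      obtain ⟨v⟩ : Nonempty (InfinitePlace M) := inferInstance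
      obtain ⟨g, hg, hg1⟩ := hsp v
      exact ⟨P.under (𝓞 E), ⟨.inl P, mem_abv.2 (Finset.mem_insert_self _ _),
        fun g hg => hP g (Sum.inl_injective hg)⟩, .inr v, trivial, g, congrArg Sum.inr hg, hg1⟩
  obtain ⟨D, hDS, hex⟩ := exists_data Pool.Agent.Q182.SI.auxp (insert p hfin.toFinset)
    (fun p hp => Finset.mem_insert_of_mem (hfin.mem_toFinset.2 hp)) hinj
    ⟨v₂, hv₂, g₂, hg₂, hg₂'⟩
  have hr : 0 < D.r := by
    obtain ⟨i, -⟩ := D.all v₁ (by rwa [hDS]) hs₁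
    exact i.pos
  obtain ⟨D', hDS', hall, hex'⟩ := pop_of_order D hr
  have hP := hO M D' (isCyclic_of_inj hinj) ⟨y, hy1⟩ ⟨p, fun q hq => by
    rw [hDS', hDS] at hq
    rcases Finset.mem_insert.1 hq with h | h
    · exact Or.inl h
    · exact Or.inr (hfin.mem_toFinset.1 h)⟩ hall
  have hQ : D.Q1 := (order_iff D).2 fun χ' hex'' hχ' σ' j' Ψ hΨ =>
    (pop_iff D').1 hP χ' (hex' χ' hχ' hex'') hχ' j' Ψ hΨ σ'
  exact starkEq_of_level (stark_of_q1 D cmpT Pool.Agent.Q176.SI.reg orb exi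
    Pool.Agent.Q277.SI.ram hQ hex ⟨y, hy⟩ j hm ψ.fn hinf σ)

theorem PopCyc.q1 {E : Type} [Field E] [NumberField E] (h : PopCyc E) : Q1Cyc E := by
  intro L _ _ _ _ D _ _ _
  exact (order_iff D).2 fun χ _ _ σ j Ψ hΨ => starkEq_of_pop h (smooth_of_infl j hΨ) σ

theorem popOver_of {E : Type} [Field E] [NumberField E] (h : Powers E 1) : PopOver E := by
  intro L _ _ _ _ D
  refine (pop_iff D).2 fun χ _ _ j Ψ hΨ σ => ?_
  obtain ⟨N₀, hN₀, h1⟩ := h L χ σ j Ψ hΨ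
  refine ⟨N₀, hN₀, fun ℓ hℓ => ?_⟩
  have h2 : σ (ℓ.A Ψ.fn) ^ 1 = ℓ.A (conj σ Ψ.fn) ^ 1 := h1 ℓ hℓ
  rw [pow_one, pow_one] at h2
  exact h2

section
variable {F : Type} [Field F] [NumberField F]

theorem pop_local {S : Finset ℕ} (hS : ∀ q ∈ S, q.Prime) {D : ℕ → Set ℕ}
    (hD : ∀ q ∈ S, ∀ d ∈ D q, ∀ n : ℕ, 0 < n → d * n ∈ D q)
    (hD' : ∀ q ∈ S, ∀ g : ℕ, (∀ d ∈ D q, g ∣ d) → g = 1)
    (h : ∀ (E : Type) [Field E] [NumberField E] [Algebra F E], LocIn S D E → PopCyc E) :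
    PopOver F := by
  refine popOver_of fun L _ _ _ _ χ σ => pow_of_law (e := 1) (fun P hP hPE => ?_) χ σ
  rw [Nat.cast_one]
  refine Pool.Agent.Q223.LD.loc_law hP hS hD hD' (fun E _ _ _ hE => ?_) F
  exact hPE E fun E₁ _ _ _ ⟨e⟩ => (h E₁ (locIn_equiv hD e hE)).q1

theorem pop_radical {p₁ p₂ : ℕ} (hp₁ : p₁.Prime) (hp₂ : p₂.Prime) (hne : p₁ ≠ p₂) {T : Set ℕ}
    (hpr : ∀ l ∈ T, l.Prime) (hinf : T.Infinite) (k : ℕ)
    (h : ∀ (E : Type) [Field E] [NumberField E] [Algebra F E] (p : ℕ), p = p₁ ∨ p = p₂ →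
      IsRadical T p F E → p ^ k ∣ Module.finrank F E → PopCyc E) : PopOver F := by
  refine popOver_of fun L _ _ _ _ χ σ => pow_of_law (e := 1) (fun P hP hPE => ?_) χ σ
  have key : ∀ p : ℕ, p.Prime → (p = p₁ ∨ p = p₂) → P F ((p ^ k : ℕ) : ℤ) := by
    intro p hp hpp
    have hf : Fact p.Prime := ⟨hp⟩
    refine Pool.Agent.Q5.VL.gen_radical_law' hP p hpr hinf k fun E _ _ _ hr hd => ?_
    refine hPE E fun E₁ _ _ _ ⟨e⟩ => (h E₁ p hpp (isRadical_equiv e hr) ?_).q1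
    rwa [e.toLinearEquiv.finrank_eq]
  rw [Nat.cast_one]
  refine Pool.Agent.Q5.VL.one_of_gcd hP F (D := {p₁ ^ k, p₂ ^ k}) (fun g hg => ?_) ?_
  · have h1 : (p₁ ^ k).Coprime (p₂ ^ k) := Nat.Coprime.pow _ _ ((Nat.coprime_primes hp₁ hp₂).2 hne)
    exact Nat.eq_one_of_dvd_coprimes h1 (hg _ (Set.mem_insert _ _))
      (hg _ (Set.mem_insert_of_mem _ rfl))
  · rintro d (rfl | rfl)
    · exact key p₁ hp₁ (Or.inl rfl)
    · exact key p₂ hp₂ (Or.inr rfl)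

end

end Pool.Agent.Q92.SE
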