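import Pool.Agent.Q92.SE.RubDefs
import Pool.Agent.Q280.SI.Rubp
import Pool.Agent.Q92.SD.Laws

/-! Rubin's conjecture up to a multiple: the extension fields which suffice. -/

set_option autoImplicit false
set_option linter.unusedSectionVars false

namespace Pool.Agent.Q92.SE

open NumberField IsDedekindDomain Pool.Agent.Q20.RS Pool.Agent.Q20.SI Pool.Agent.Q280.SI
  Pool.Agent.Q92.SD Pool.Agent.Q5.BR

theorem rubin_q1 {F K : Type} [Field F] [NumberField F] [Field K] [NumberField K] [Algebra F K]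
    (D : OrderData F K) [IsGalois F K] : RubinQ1 D ↔ D.Q1 := by
  rw [rubin_iff, order_iff]
  exact ⟨fun h χ hex hχ σ j Ψ hΨ => h χ hex hχ j Ψ hΨ σ,
    fun h χ hex hχ j Ψ hΨ σ => h χ hex hχ σ j Ψ hΨ⟩

theorem RubinCyc.q1 {E : Type} [Field E] [NumberField E] (h : RubinCyc E) : Q1Cyc E :=
  fun L _ _ _ _ D h1 h2 h3 => (rubin_q1 D).1 (h L D h1 h2 h3)

theorem rubinOver_of {E : Type} [Field E] [NumberField E] (h : Q1Over E) : RubinOver E :=
  fun L _ _ _ _ D => (rubin_q1 D).2 (h L D)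

section
variable {F : Type} [Field F] [NumberField F]

theorem rubin_local {S : Finset ℕ} (hS : ∀ q ∈ S, q.Prime) {D : ℕ → Set ℕ}
    (hD : ∀ q ∈ S, ∀ d ∈ D q, ∀ n : ℕ, 0 < n → d * n ∈ D q)
    (hD' : ∀ q ∈ S, ∀ g : ℕ, (∀ d ∈ D q, g ∣ d) → g = 1)
    (h : ∀ (E : Type) [Field E] [NumberField E] [Algebra F E], LocIn S D E → RubinCyc E) :
    RubinOver F :=
  rubinOver_of (local_exact hS hD hD' fun E _ _ _ hE => (h E hE).q1)

theorem rubin_radical {p₁ p₂ : ℕ} (hp₁ : p₁.Prime) (hp₂ : p₂.Prime) (hne : p₁ ≠ p₂) {T : Set ℕ}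
    (hpr : ∀ l ∈ T, l.Prime) (hinf : T.Infinite) (k : ℕ)
    (h : ∀ (E : Type) [Field E] [NumberField E] [Algebra F E] (p : ℕ), p = p₁ ∨ p = p₂ →
      IsRadical T p F E → p ^ k ∣ Module.finrank F E → RubinCyc E) : RubinOver F :=
  rubinOver_of (radical_exact hp₁ hp₂ hne hpr hinf k fun E _ _ _ p hp hr hd => (h E p hp hr hd).q1)

end

end Pool.Agent.Q92.SE
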