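import Pool.Agent.Q280.SI.Rub
import Pool.Agent.Q92.SD.Defs

/-! Rubin's conjecture up to a multiple over a field: definitions. -/

set_option autoImplicit false
set_option linter.unusedSectionVars false

namespace Pool.Agent.Q92.SE

open NumberField IsDedekindDomain Pool.Agent.Q20.RS Pool.Agent.Q20.SI Pool.Agent.Q280.SI

/-- Rubin's conjecture up to a multiple for all data over `E` -/
def RubinOver (E : Type) [Field E] [NumberField E] : Prop :=
  ∀ (L : Type) [Field L] [NumberField L] [Algebra E L] [IsGalois E L] (D : OrderData E L),
    RubinQ1 D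

/-- Rubin's conjecture up to a multiple for the data `(L/E, S, T)` for which `L/E` is cyclic of degree
greater than `1` and `S` consists of the archimedean places, the ramified primes and at most one further
prime -/
def RubinCyc (E : Type) [Field E] [NumberField E] : Prop :=
  ∀ (L : Type) [Field L] [NumberField L] [Algebra E L] [IsGalois E L] (D : OrderData E L),
    IsCyclic (L ≃ₐ[E] L) → (∃ g : L ≃ₐ[E] L, g ≠ 1) →
    (∃ p : HeightOneSpectrum (𝓞 E), ∀ q ∈ D.S, q = p ∨ ¬ Unrm L q) → RubinQ1 D

end Pool.Agent.Q92.SE
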